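import Pool.Agent.Helper19.HV.Curve
import Pool.Agent.Helper91.PL.A6

/-!
# Project HV, module SCL: the scaling path with its value on constants
-/

set_option autoImplicit false

open Polynomial

namespace Pool.Agent.Helper19.HV

noncomputable section

open PL

theorem mSCL (F : Type) [Field F] : ∃ σ : RatFunc F →+* RatFunc (RatFunc F),
    (∀ x : P1 (RatFunc F), val (1 : RatFunc F) (Option.map σ x) = x) ∧
    (∀ x : P1 (RatFunc F), val (0 : RatFunc F) (Option.map σ x) = cst (val (0 : F) x)) ∧
    ∀ c : F, σ (RatFunc.C c) = RatFunc.C (RatFunc.C c) := by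
  let φ : Polynomial F →+* Polynomial (RatFunc F) :=
    Polynomial.eval₂RingHom ((Polynomial.C : RatFunc F →+* Polynomial (RatFunc F)).comp
      (RatFunc.C : F →+* RatFunc F)) (Polynomial.C RatFunc.X * Polynomial.X)
  have h1 : ∀ P : Polynomial F, (φ P).eval 1 = algebraMap _ (RatFunc F) P := by
    intro P
    have : (Polynomial.evalRingHom (1 : RatFunc F)).comp φ =
        algebraMap (Polynomial F) (RatFunc F) := by
      apply Polynomial.ringHom_ext
      · intro x
        simp [φ]
      · simp [φ]
    exact congrArg (fun g : Polynomial F →+* RatFunc F => g P) this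
  have h2 : ∀ P : Polynomial F, (φ P).eval 0 = RatFunc.C (P.eval 0) := by
    intro P
    have : (Polynomial.evalRingHom (0 : RatFunc F)).comp φ =
        (RatFunc.C : F →+* RatFunc F).comp (Polynomial.evalRingHom (0 : F)) := by
      apply Polynomial.ringHom_ext
      · intro x
        simp [φ]
      · simp [φ]
    exact congrArg (fun g : Polynomial F →+* RatFunc F => g P) this
  have hφ : nonZeroDivisors (Polynomial F) ≤
      (nonZeroDivisors (Polynomial (RatFunc F))).comap φ := by
    intro P hP
    rw [Submonoid.mem_comap, mem_nonZeroDivisors_iff_ne_zero]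
    intro h0
    have h3 := h1 P
    rw [h0, Polynomial.eval_zero] at h3
    exact RatFunc.algebraMap_ne_zero (nonZeroDivisors.ne_zero hP) h3.symm
  refine ⟨RatFunc.mapRingHom φ hφ, fun x => ?_, fun x => ?_, fun c => ?_⟩
  · cases x with
    | none => rfl
    | some f =>
      have h0 : RatFunc.mapRingHom φ hφ f = algebraMap _ (RatFunc (RatFunc F)) (φ f.num) /
          algebraMap _ (RatFunc (RatFunc F)) (φ f.denom) := by
        conv_lhs => rw [← RatFunc.num_div_denom f]
        rw [RatFunc.coe_mapRingHom_eq_coe_map, RatFunc.map_apply_div]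
      have h3 : (φ f.denom).eval 1 ≠ 0 := by
        rw [h1]
        exact RatFunc.algebraMap_ne_zero (RatFunc.denom_ne_zero f)
      rw [Option.map_some, a6_val_some h0 h3, h1, h1, RatFunc.num_div_denom]
  · cases x with
    | none => rfl
    | some f => exact a6_map φ hφ RatFunc.C 0 0 h2 f
  · have h4 : RatFunc.C c = algebraMap (Polynomial F) (RatFunc F) (Polynomial.C c) :=
      (RatFunc.algebraMap_C c).symm
    rw [h4, RatFunc.coe_mapRingHom_eq_coe_map]
    have h5 : φ (Polynomial.C c) = Polynomial.C (RatFunc.C c) := by simp [φ]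
    have h6 := RatFunc.map_apply_div (φ := φ) hφ (Polynomial.C c) (1 : Polynomial F)
    simp only [map_one, div_one] at h6
    rw [h6, h5, RatFunc.algebraMap_C]
    rw [RatFunc.algebraMap_C]

end

end Pool.Agent.Helper19.HV
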